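import Pool.Agent.Work.MP_0a826e_ag.R.Pj4

namespace Pool.Agent.Work.MP_0a826e_ag.Parked.InvariantLine

open Pool.Agent.Work.MP_0a826e_ag
open scoped LinearAlgebra.Projectivization

/-- Dynamical Manin-Mumford for the endomorphisms of the complex projective plane that have a
totally invariant line: a Zariski closed set with a Zariski dense set of preperiodic points is
preperiodic. -/
theorem result (d : ℕ) (hd : 2 ≤ d) (F : Fin 3 → MvPolynomial (Fin 3) ℂ)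
    (hF : ∀ v, v ≠ 0 → evalMap F v ≠ 0) (hom : ∀ i, (F i).IsHomogeneous d)
    (l : (Fin 3 → ℂ) →ₗ[ℂ] ℂ) (hl : l ≠ 0)
    (hinv : projMap F hF ⁻¹' {p | l p.rep = 0} = {p | l p.rep = 0})
    (Y S : Set (ℙ ℂ (Fin 3 → ℂ)))
    (hY : ∀ p : ℙ ℂ (Fin 3 → ℂ), (∀ g ∈ idealOf Y, MvPolynomial.eval p.rep g = 0) → p ∈ Y)
    (hSY : S ⊆ Y) (hdense : idealOf S = idealOf Y)
    (hpre : ∀ x ∈ S, (Set.range fun k : ℕ => (projMap F hF)^[k] x).Finite) :
    ∃ m n : ℕ, 1 ≤ n ∧ (projMap F hF)^[m + n] '' Y = (projMap F hF)^[m] '' Y :=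
  R.proj_line hd hF hom l hl hinv hY hSY hdense hpre

end Pool.Agent.Work.MP_0a826e_ag.Parked.InvariantLine
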